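import Pool.Agent.H310.HD.Meas

/-!
# The first exceptions to `ω`-strong measurability in `HOD` are not measurable cardinals

Let `D` be a normal ultrafilter on the measurable cardinal `κ`. If `κ` is not `ω`-strongly measurable
in `HOD`, then `D`-almost all regular `l < κ` are not. So, if all regular cardinals between some
`β < κ` and `κ` are `ω`-strongly measurable in `HOD`, then `κ` is, too. Partitions of `cof(ω) ∩ κ` into
fewer than `κ` stationary sets which belong to `HOD` reflect to almost all `l < κ`.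
-/

set_option autoImplicit false

namespace Pool.Agent.Results.MP_ecfd11_lc.MeasurableCardinals

open Pool.Agent.H310.HD Filter

universe u

/-- **Main theorem.** `b` chooses one of the two readings of the definition (`κ < λ` an arbitrary
ordinal, or a cardinal). -/
theorem result (κ : Ordinal.{u}) (D : Ultrafilter Ordinal.{u}) (hD : Normal κ D) (b : Bool) :
    (NotStrMeas b κ → ∀ᶠ l in (D : Filter Ordinal.{u}), NotStrMeas b l) ∧
    (∀ β < κ, (∀ l, β < l → l < κ → RegUnc (Ordinal.toZFSet l) → StrMeas b l) → StrMeas b κ) ∧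
    (∀ μ < κ, (∃ g, HOD g ∧ IsPart (Ordinal.toZFSet μ) κ.toZFSet g) →
      ∀ᶠ l in (D : Filter Ordinal.{u}), ∃ g, HOD g ∧ IsPart (Ordinal.toZFSet μ) l.toZFSet g) := by
  refine ⟨hD.notStrMeas_ae, fun β hβ h => ?_, fun μ hμ ⟨g, hg, hp⟩ => ?_⟩
  · by_contra hn
    obtain ⟨l, h1, h2, h3⟩ := ((hD.notStrMeas_ae (b := b) ⟨hD.regUnc, hn⟩).and
      ((hD.ioi hβ).and hD.conc)).exists
    exact h1.2 (h l h2 h3 h1.1)
  · filter_upwards [hD.isPart_ae hμ hp] with l hl
    exact ⟨_, HOD_restr hg hp.1, hl⟩

end Pool.Agent.Results.MP_ecfd11_lc.MeasurableCardinals
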