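import Pool.Agent.H310.HD.Str

/-!
# The HOD Conjecture is decided below every reflecting cardinal

Let `δ` be a `Σ₂`-reflecting cardinal (for instance a strong, supercompact or extendible cardinal; for
extendible cardinals this is proved here). For every `β < δ`: all regular `λ > β` are `ω`-strongly
measurable in `HOD` if and only if all regular `λ` with `β < λ < δ` are. So one regular `λ ≥ δ` which is
not `ω`-strongly measurable in `HOD` gives unboundedly many below `δ`.

The idea: not being `ω`-strongly measurable in `HOD` is a `Σ₂` property of `λ`, because it passes from the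
approximation of `HOD` inside of a rank initial segment to `HOD`.
-/

set_option autoImplicit false

namespace Pool.Agent.Results.MP_ecfd11_lc.ReflectingCardinals

open Pool.Agent.H310.HD

universe u

/-- **Main theorem.** `b` chooses one of the two readings of the definition (`κ < λ` an arbitrary
ordinal, or a cardinal). -/
theorem result (b : Bool) (δ : Ordinal.{u}) :
    (Extendible δ → Reflecting δ) ∧
    (Reflecting δ →
      (∀ β < δ, (∀ l > β, RegUnc (Ordinal.toZFSet l) → StrMeas b l) ↔
        (∀ l, β < l → l < δ → RegUnc (Ordinal.toZFSet l) → StrMeas b l)) ∧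
      ((∃ l ≥ δ, NotStrMeas b l) → ∀ β < δ, ∃ l, β < l ∧ l < δ ∧ NotStrMeas b l)) := by
  refine ⟨fun h => h.reflecting, fun h => ?_⟩
  have key : ∀ β < δ, ∀ l > β, NotStrMeas b l → ∃ l', β < l' ∧ l' < δ ∧ NotStrMeas b l' := by
    intro β hβ l hl hn
    rw [notStrMeas_iff] at hn
    obtain ⟨l', h1, h2, h3⟩ := h.below (mono_Index b) hβ hl hn
    exact ⟨l', h1, h2, (notStrMeas_iff b l').2 h3⟩
  refine ⟨fun β hβ => ⟨fun h1 l hl _ hr => h1 l hl hr, fun h1 l hl hr => ?_⟩, ?_⟩
  · by_contra hn
    obtain ⟨l', h2, h3, h4, h5⟩ := key β hβ l hl ⟨hr, hn⟩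
    exact h5 (h1 l' h2 h3 h4)
  · rintro ⟨l, hl, hn⟩ β hβ
    exact key β hβ l (hβ.trans_le hl) hn

end Pool.Agent.Results.MP_ecfd11_lc.ReflectingCardinals
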