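import Pool.Agent.H310.HD.Sing

/-!
# Points of cofinality `ω` which are singular in `HOD`

Let `l` be regular and uncountable. If stationary many `α < l` of cofinality `ω` are singular in
`HOD`, then for all `0 < k ≤ l` there is in `HOD` a partition of `cof(ω) ∩ l` into `k` stationary sets;
so `l` is not `ω`-strongly measurable in `HOD`. In particular this holds for all regular limit cardinals
`l`, if `HOD` is correct about singular cardinals of cofinality `ω`.
-/

set_option autoImplicit false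

namespace Pool.Agent.Results.MP_ecfd11_lc.SingularPoints

open Pool.Agent.H310.HD

universe u

/-- The class `HOD` contains partitions of `cof(ω) ∩ l` into any number `0 < k ≤ l` of stationary
subsets of `l`. -/
def SplitsAll (l : Ordinal.{u}) : Prop :=
  ∀ k : Ordinal.{u}, 0 < k → k ≤ l → ∃ g, HOD g ∧ IsPart k.toZFSet l.toZFSet g

/-- `l` is regular and stationary many `α < l` have cofinality `ω` and are singular in `HOD`. -/
def ManySing (l : Ordinal.{u}) : Prop :=
  RegUnc l.toZFSet ∧ StatL {α | CofOm α.toZFSet ∧ CofinalP HOD α.toZFSet} l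

/-- `l` is a regular uncountable limit cardinal. -/
def RegLim (l : Ordinal.{u}) : Prop :=
  RegUnc l.toZFSet ∧ ∀ ξ < l, ∃ c < l, ξ < c ∧ IsCard (Ordinal.toZFSet c)

/-- **Main theorem.** `b` chooses one of the two readings of the definition (`κ < λ` an arbitrary
ordinal, or a cardinal). -/
theorem result (b : Bool) :
    (∀ l : Ordinal.{u}, ManySing l → NotStrMeas b l ∧ SplitsAll l) ∧
    (∀ l : Ordinal.{u}, RegLim l → (∃ β < l, ∀ α < l, β < α → IsSing α.toZFSet →
      CofOm α.toZFSet → CofinalP HOD α.toZFSet) → ManySing l) ∧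
    ((∀ ξ : Ordinal.{u}, ∃ l > ξ, ManySing l) → ∀ ξ : Ordinal.{u}, ∃ l > ξ, NotStrMeas b l) ∧
    ((∃ β : Ordinal.{u}, ∀ α > β, IsSing α.toZFSet → CofOm α.toZFSet →
      CofinalP HOD α.toZFSet) → (∀ ξ : Ordinal.{u}, ∃ l > ξ, RegLim l) →
      ∀ ξ : Ordinal.{u}, ∃ l > ξ, NotStrMeas b l ∧ SplitsAll l) := by
  have h1 : ∀ l : Ordinal.{u}, ManySing l → NotStrMeas b l ∧ SplitsAll l := fun l h =>
    ⟨notStrMeas_of_sing b h.1 h.2, fun k hk0 hk => split_of_sing h.1 h.2 hk0 hk⟩
  have h2 : ∀ l : Ordinal.{u}, RegLim l → (∃ β < l, ∀ α < l, β < α → IsSing α.toZFSet →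
      CofOm α.toZFSet → CofinalP HOD α.toZFSet) → ManySing l := by
    rintro l hl ⟨β, hβ, h⟩
    exact ⟨hl.1, (statL_card hl.1 hl.2 hβ).mono fun α hα h3 =>
      ⟨h3.2.2, h α hα h3.1 h3.2.1 h3.2.2⟩⟩
  refine ⟨h1, h2, fun h ξ => ?_, ?_⟩
  · obtain ⟨l, hl, h3⟩ := h ξ
    exact ⟨l, hl, (h1 l h3).1⟩
  · rintro ⟨β, h⟩ h' ξ
    obtain ⟨l, hl, h3⟩ := h' (max ξ β)
    exact ⟨l, (le_max_left _ _).trans_lt hl, h1 l (h2 l h3 ⟨β, (le_max_right _ _).trans_lt hl,
      fun α _ h4 => h α h4⟩)⟩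

end Pool.Agent.Results.MP_ecfd11_lc.SingularPoints
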